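import Pool.Agent.H97.Bin.Final

/-!
# The supercongruence linking the binomial sums at `1/256` and `1/54000`

For every prime `p ≡ 1 (mod 3)` the difference
`∑_{k ≤ (p-1)/2} choose (2k) k ^ 3 / 256 ^ k - (-5/p) ∑_{k < p} a_k / 54000 ^ k`, with
`a_k = choose (2k) k * choose (3k) k * choose (6k) (3k)`, is `p ^ 3` times a rational number with
denominator prime to `p`.
-/

namespace Pool.Agent.Results.MP_2d2b11_nt.CongruenceModCube

open Finset

theorem result (p : ℕ) [hp : Fact p.Prime] (h3 : p % 3 = 1) :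
    ∃ a b : ℤ, ¬ (p : ℤ) ∣ b ∧
      ((∑ k ∈ range ((p - 1) / 2 + 1), (((2 * k).choose k : ℕ) : ℚ) ^ 3 / 256 ^ k) -
        (legendreSym p (-5) : ℚ) * ∑ k ∈ range p,
          (((2 * k).choose k * (3 * k).choose k * (6 * k).choose (3 * k) : ℕ) : ℚ) / 54000 ^ k) * b =
        (p : ℚ) ^ 3 * a :=
  Pool.Agent.H97.Bin.main p h3

end Pool.Agent.Results.MP_2d2b11_nt.CongruenceModCube
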